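import Mathlib
import Pool.Agent.H628R4.TZ.Final

/-!
# The strong monodromy conjecture, with multiplicities, for monomial ideals

Let `I` be a nonzero monomial ideal of `ℂ[x_1, …, x_N]`, generated by `x ^ (v 1), …, x ^ (v r)`.
Then `b_I(s) * Z_I(s)` is a polynomial in `s`. Here `Z_I` is computed on a toric log resolution.

Idea of the proof. For `s > 0` one has `Z_I(s) = ∫ e ^ (-|x| - s m(x)) dx` over the positive
orthant, with `m(x) = min_j ⟨v j, x⟩`. The functional equation says that `b(s_1 + ⋯ + s_r)` is a
combination of polynomials `∏_{c_j < 0} s_j * ∏_{⟨c, v⟩_i > 0} (ℓ_i(s) + 1) * q(s)`. In a smooth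
approximation of the integral, `s_j` acts as `- ∂ / ∂ y_j` (`y_j` being the shift of the `j`-th
linear form), so that the factors `s_j` restrict the integral to the set where the `j`-th linear
form is minimal, and the factors `ℓ_i(s) + 1` restrict it to the set where `x_i = 0`; together
they restrict it to the set where `m(x) = 0`, and there is no pole.
-/

set_option autoImplicit false

namespace Pool.Agent.Results.MP_ee8c61_ag.MonomialIdeals

open Polynomial Pool.Agent.H628R4.TZ

/-- **The stronger form of the strong monodromy conjecture holds for monomial ideals.**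

`IsFunctionalEq (mons v) b` says that `b` satisfies a functional equation as in the definition of
the Bernstein-Sato polynomial for the generators `x ^ (v j)`, `j < r`; the Bernstein-Sato
polynomial `b_I` is by definition one of these polynomials `b` (the monic one of least degree).
`topZeta R` is the topological zeta function computed on the toric log resolution `R`. -/
theorem result {r N : ℕ} [NeZero r] (v : Fin r → Fin N → ℕ) (R : ToricResolution v)
    (b : ℂ[X]) (hb : IsFunctionalEq (mons v) b) :
    ∃ P : ℂ[X], algebraMap ℂ[X] (RatFunc ℂ) b * topZeta R = algebraMap ℂ[X] (RatFunc ℂ) P :=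
  main R b hb

/-- The case of the Bernstein-Sato polynomial itself. -/
theorem bernsteinSato {r N : ℕ} [NeZero r] (v : Fin r → Fin N → ℕ) (R : ToricResolution v)
    (b : ℂ[X]) (hb : IsBernsteinSato (mons v) b) :
    ∃ P : ℂ[X], algebraMap ℂ[X] (RatFunc ℂ) b * topZeta R = algebraMap ℂ[X] (RatFunc ℂ) P :=
  main R b hb.2.1

end Pool.Agent.Results.MP_ee8c61_ag.MonomialIdeals
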